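import Mathlib
import Pool.Agent.H98.MC4

set_option autoImplicit false

namespace Pool.Agent.Results.MP_7d5d9e_an.ExponentZero

open Filter Topology MeasureTheory Pool.Agent.H98.MC
open scoped ENNReal Classical

/-- the closed unit cube. -/
def cube (d : ℕ) : Set (Fin d → ℝ) := Set.univ.pi fun _ => Set.Icc 0 1

/-- the open unit cube. -/
def ocube (d : ℕ) : Set (Fin d → ℝ) := Set.univ.pi fun _ => Set.Ioo 0 1

/-- the class `F_d^k`; if `cont` holds, continuity up to the boundary is required as well. -/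
def F (cont : Prop) (d k : ℕ) : Set ((Fin d → ℝ) → ℝ) :=
  {f | (cont → ContinuousOn f (cube d)) ∧ (∀ x ∈ cube d, |f x| ≤ 1) ∧
    ContDiffOn ℝ k f (ocube d) ∧ ∀ j ≤ k, ∀ r : Fin j → Fin d, ∀ x ∈ ocube d,
      |iteratedFDeriv ℝ j f x fun l => Pi.single (r l) 1| ≤ 1}

/-- the integral over the cube. -/
noncomputable def S (d : ℕ) (f : (Fin d → ℝ) → ℝ) : ℝ := ∫ x in cube d, f x

/-- deterministic adaptive algorithm: next node, stopping rule and output, each a function of
the list of values computed so far. -/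
structure DetAlg (d : ℕ) where
  node : List ℝ → Fin d → ℝ
  node_mem : ∀ l, node l ∈ cube d
  stop : List ℝ → Prop
  out : List ℝ → ℝ

/-- the first `j` computed values. -/
def info {d : ℕ} (A : DetAlg d) (f : (Fin d → ℝ) → ℝ) : ℕ → List ℝ
  | 0 => []
  | j + 1 => info A f j ++ [f (A.node (info A f j))]

/-- number of function values used (infinite if the algorithm never stops). -/
noncomputable def cost {d : ℕ} (A : DetAlg d) (f : (Fin d → ℝ) → ℝ) : ℝ≥0∞ :=
  ⨅ (j : ℕ) (_ : A.stop (info A f j)), (j : ℝ≥0∞)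

/-- output at the first stopping time. -/
noncomputable def output {d : ℕ} (A : DetAlg d) (f : (Fin d → ℝ) → ℝ) : ℝ :=
  if h : ∃ j, A.stop (info A f j) then A.out (info A f (Nat.find h)) else 0

/-- upper integral. -/
noncomputable def upperInt {Ω : Type} [MeasurableSpace Ω] (μ : Measure Ω) (h : Ω → ℝ≥0∞) : ℝ≥0∞ :=
  ⨅ (g : Ω → ℝ≥0∞) (_ : Measurable g) (_ : ∀ ω, h ω ≤ g ω), ∫⁻ ω, g ω ∂μ

/-- `n`-th minimal randomized error; if `meas` holds, cost and output must be measurable in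
`ω` for each `f` in the class. -/
noncomputable def eran (cont meas : Prop) (n d k : ℕ) : ℝ≥0∞ :=
  ⨅ (Ω : Type) (_ : MeasurableSpace Ω) (μ : Measure Ω) (_ : IsProbabilityMeasure μ)
    (A : Ω → DetAlg d)
    (_ : meas → ∀ f ∈ F cont d k,
      Measurable (fun ω => cost (A ω) f) ∧ Measurable fun ω => output (A ω) f)
    (_ : ∀ f ∈ F cont d k, ∫⁻ ω, cost (A ω) f ∂μ ≤ n),
    ⨆ f ∈ F cont d k, upperInt μ fun ω => ENNReal.ofReal |S d f - output (A ω) f|

lemma output_eq {d : ℕ} (A : DetAlg d) (f : (Fin d → ℝ) → ℝ) (j : ℕ) (h : A.stop (info A f j))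
    (hm : ∀ i < j, ¬A.stop (info A f i)) : output A f = A.out (info A f j) := by
  rw [output, dif_pos ⟨j, h⟩]
  congr 2
  exact (Nat.find_eq_iff _).2 ⟨h, hm⟩

lemma S_eq {d : ℕ} {f : (Fin d → ℝ) → ℝ} (hf : ContinuousOn f (ocube d)) :
    S d f = ∫ z, f (emb z) ∂(Measure.pi fun _ => lam) := by
  have h1 : MeasurePreserving (emb : (Fin d → II) → Fin d → ℝ) (Measure.pi fun _ => lam)
      (volume.restrict (ocube d)) := by
    rw [ocube, volume_pi, Measure.restrict_pi_pi]
    exact measurePreserving_pi _ _ fun _ => measurePreserving_subtype_coe measurableSet_Ioo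
  have h2 : ocube d =ᵐ[volume] cube d := Measure.pi_Ioo_ae_eq_pi_Icc
  rw [S, ← Measure.restrict_congr_set h2, ← h1.map_eq, integral_map h1.measurable.aemeasurable]
  rw [h1.map_eq]
  exact hf.aestronglyMeasurable oc_open.measurableSet

lemma abs_le_of_sq {Ω : Type} [MeasurableSpace Ω] (μ : Measure Ω) [IsProbabilityMeasure μ]
    {u : Ω → ℝ} (hu : BM u) {e : ℝ} (he : 0 ≤ e) (h : ∫ ω, u ω ^ 2 ∂μ ≤ e ^ 2) :
    ∫ ω, |u ω| ∂μ ≤ e := by
  have ha : BM fun ω => |u ω| := by
    obtain ⟨h1, B, hB⟩ := hu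
    exact ⟨h1.abs, B, by simpa using hB⟩
  set c := ∫ ω, |u ω| ∂μ with hc
  have h1 : 0 ≤ ∫ ω, (|u ω| - c) ^ 2 ∂μ := integral_nonneg fun y => sq_nonneg _
  have e1 : ∀ ω, (|u ω| - c) ^ 2 = u ω ^ 2 - (2 * c * |u ω| - c ^ 2) := fun y => by
    rw [← sq_abs (u y)]; ring
  simp only [e1] at h1
  rw [integral_sub (hu.sq.int _) ((((BM.const _).mul ha).sub (BM.const _)).int _),
    integral_sub (((BM.const _).mul ha).int _) (integrable_const _), integral_const_mul,
    ← hc] at h1
  simp only [integral_const, probReal_univ, smul_eq_mul, one_mul] at h1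
  exact (pow_le_pow_iff_left₀ (integral_nonneg fun _ => abs_nonneg _) he two_ne_zero).1 (by nlinarith)

lemma upper (cont meas : Prop) {n d k : ℕ} {e : ℝ} (he : 0 ≤ e)
    (h : Sch (FF d k) Unit n (fun g c => (c () - ∫ z, g z ∂(Measure.pi fun _ => lam)) ^ 2)
      (e ^ 2)) : eran cont meas n d k ≤ ENNReal.ofReal e := by
  obtain ⟨ι, Ω, _, _, μ, _, X, G, hc, h⟩ := h
  let q := Fintype.equivFin ι
  let nd : Ω → ℕ → Fin d → ℝ := fun ω j =>
    if h : j < Fintype.card ι then emb (X ω (q.symm ⟨j, h⟩)) else 0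
  let A : Ω → DetAlg d := fun ω =>
    { node := fun l => nd ω l.length
      node_mem := fun l i _ => by
        simp only [nd]
        split_ifs
        · exact Set.Ioo_subset_Icc_self (emb_mem _ i trivial)
        · simp
      stop := fun l => Fintype.card ι ≤ l.length
      out := fun l => G ω (fun i => l.getD (q i) 0) () }
  have hi : ∀ ω f j, info (A ω) f j = (List.range j).map fun i => f (nd ω i) := fun ω f j => by
    induction j with
    | zero => rfl
    | succ j ih => rw [info, ih]; simp [List.range_succ, A]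
  have hs : ∀ ω f j, (A ω).stop (info (A ω) f j) ↔ Fintype.card ι ≤ j := fun ω f j => by
    rw [hi]; simp [A]
  have hcost : ∀ ω f, cost (A ω) f = Fintype.card ι := fun ω f => by
    simp only [cost, hs]
    exact le_antisymm (iInf₂_le _ le_rfl) (le_iInf₂ fun j hj => by exact_mod_cast hj)
  have hout : ∀ ω f, output (A ω) f = G ω (fun i => f (emb (X ω i))) () := fun ω f => by
    rw [output_eq _ _ _ ((hs ω f _).2 le_rfl)
      fun j hj h => absurd ((hs ω f j).1 h) (not_le.2 hj), hi]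
    simp [A, nd, List.getD_eq_getElem?_getD]
  have hb : ∀ f ∈ F cont d k, BM (fun ω => G ω (fun i => f (emb (X ω i))) ()) ∧
      ∫ ω, (G ω (fun i => f (emb (X ω i))) () - S d f) ^ 2 ∂μ ≤ e ^ 2 := fun f hf => by
    obtain ⟨h1, h2⟩ := h _ ⟨f, ⟨hf.2.2.1, hf.2.2.2⟩, rfl⟩
    rw [S_eq hf.2.2.1.continuousOn]
    exact ⟨h1.comp (p := fun ω => (ω, ())) (by fun_prop), h2⟩
  refine iInf_le_of_le Ω <| iInf_le_of_le ‹_› <| iInf_le_of_le μ <| iInf_le_of_le ‹_› <|
    iInf_le_of_le A <| iInf_le_of_le (fun _ f hf => ?_) <| iInf_le_of_le (fun f _ => ?_) <|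
    iSup₂_le fun f hf => ?_
  · simp only [hcost, hout]
    exact ⟨measurable_const, (hb f hf).1.1⟩
  · simpa [hcost] using hc
  · obtain ⟨h1, h2⟩ := hb f hf
    have h3 := h1.sub (BM.const (S d f))
    simp only [hout, abs_sub_comm (S d f)]
    refine iInf_le_of_le _ <| iInf_le_of_le h3.1.abs.ennreal_ofReal <|
      iInf_le_of_le (fun _ => le_rfl) ?_
    rw [← ofReal_integral_eq_lintegral_ofReal (h3.int μ).abs
      (Eventually.of_forall fun _ => abs_nonneg _)]
    exact ENNReal.ofReal_le_ofReal (abs_le_of_sq μ h3 he h2)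

lemma bump (k : ℕ) {u : ℝ → ℝ} (hu : ContDiff ℝ (⊤ : ℕ∞) u) : ∃ c : ℝ, 0 < c ∧ ∀ (cont : Prop) (d : ℕ)
    (i : Fin d) (a : ℝ), |a| ≤ c → (fun x => a * u (x i)) ∈ F cont d k := by
  have hc : ∀ j : ℕ, Continuous fun t => ‖iteratedFDeriv ℝ j u t‖ := fun j =>
    (hu.continuous_iteratedFDeriv (by exact_mod_cast le_top)).norm
  obtain ⟨B, hB⟩ := (isCompact_Icc (a := (0 : ℝ)) (b := 1)).exists_bound_of_continuousOn
    (continuous_finset_sum (Finset.range (k + 1)) fun j _ => hc j).continuousOn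
  have hB0 : 0 ≤ B := (norm_nonneg _).trans (hB 0 (by simp))
  refine ⟨1 / (B + 1), by positivity, fun cont d i a ha => ?_⟩
  have h1 : ∀ j ≤ k, ∀ r : Fin j → Fin d, ∀ x ∈ cube d,
      |iteratedFDeriv ℝ j (fun x : Fin d → ℝ => a * u (x i)) x fun l => Pi.single (r l) 1| ≤ 1 :=
    fun j hj r x hx => by
    have h2 := ContinuousLinearMap.iteratedFDeriv_comp_right
      (ContinuousLinearMap.proj (R := ℝ) (φ := fun _ : Fin d => ℝ) i) (hu.const_smul a) x (i := j) (by exact_mod_cast le_top)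
    have h3 : ‖iteratedFDeriv ℝ j u (x i)‖ ≤ B := by
      refine le_trans ?_ ((le_abs_self _).trans (hB _ (hx i trivial)))
      exact Finset.single_le_sum (f := fun j => ‖iteratedFDeriv ℝ j u (x i)‖)
        (fun _ _ => norm_nonneg _) (Finset.mem_range.2 (Nat.lt_succ_of_le hj))
    erw [h2]
    rw [ContinuousMultilinearMap.compContinuousLinearMap_apply,
      iteratedFDeriv_const_smul_apply' (hu.of_le (by exact_mod_cast le_top)).contDiffAt,
      ← Real.norm_eq_abs]
    refine (ContinuousMultilinearMap.le_opNorm _ _).trans ?_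
    refine mul_le_one₀ ?_ (Finset.prod_nonneg fun _ _ => norm_nonneg _)
      (Finset.prod_le_one (fun _ _ => norm_nonneg _) fun l _ => ?_)
    · rw [norm_smul, Real.norm_eq_abs]
      refine (mul_le_mul ha h3 (norm_nonneg _) (by positivity)).trans ?_
      rw [one_div, inv_mul_le_iff₀ (by positivity)]
      linarith
    · simp only [ContinuousLinearMap.proj_apply, Pi.single_apply]
      split_ifs <;> simp
  have h4 : ContDiff ℝ (⊤ : ℕ∞) fun x : Fin d → ℝ => a * u (x i) := by fun_prop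
  exact ⟨fun _ => h4.continuous.continuousOn,
    fun x hx => by simpa using h1 0 k.zero_le Fin.elim0 x hx,
    (h4.of_le (by exact_mod_cast le_top)).contDiffOn,
    fun j hj r x hx => h1 j hj r x fun i _ => Set.Ioo_subset_Icc_self (hx i trivial)⟩

lemma pos_int {u : ℝ → ℝ} (hu : Continuous u) (h0 : ∀ t, 0 ≤ u t) {a b : ℝ} (ha : 0 ≤ a)
    (hab : a < b) (hb : b ≤ 1) (h : ∀ t ∈ Set.Ioo a b, 0 < u t) : 0 < ∫ t : II, u t ∂lam := by
  rw [lam, integral_subtype_comap measurableSet_Ioo,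
    setIntegral_pos_iff_support_of_nonneg_ae (Eventually.of_forall h0)
      ((hu.integrableOn_Icc).mono_set Set.Ioo_subset_Icc_self)]
  refine lt_of_lt_of_le ?_ (measure_mono (s := Set.Ioo a b) fun t ht =>
    ⟨(h t ht).ne', ha.trans_lt ht.1, ht.2.trans_le hb⟩)
  simpa using hab

lemma pair {β s a : ℝ} (h : β ≤ s) :
    ENNReal.ofReal (2 * β) ≤ ENNReal.ofReal |s - a| + ENNReal.ofReal |-s - a| := by
  rw [← ENNReal.ofReal_add (abs_nonneg _) (abs_nonneg _)]
  refine ENNReal.ofReal_le_ofReal ?_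
  linarith [le_abs_self (s - a), neg_abs_le (-s - a)]

lemma det {d : ℕ} (A : DetAlg d) {β : ℝ} {f g : (Fin d → ℝ) → ℝ} (hf : β ≤ S d f)
    (hg : β ≤ S d g) (h : ∀ x, f x = 0 ∨ g x = 0) :
    2 * ENNReal.ofReal (2 * β) ≤
      (ENNReal.ofReal |S d f - output A f| + ENNReal.ofReal |S d (-f) - output A (-f)|) +
      (ENNReal.ofReal |S d g - output A g| + ENNReal.ofReal |S d (-g) - output A (-g)|) +
      ENNReal.ofReal (2 * β) * cost A 0 := by
  have hn : ∀ f, S d (-f) = -S d f := fun f => integral_neg _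
  rw [hn, hn]
  by_cases h0 : A.stop []
  · have ho : ∀ f, output A f = A.out [] := fun f => by
      have hex : ∃ j, A.stop (info A f j) := ⟨0, h0⟩
      rw [output, dif_pos hex, (Nat.find_eq_zero hex).2 h0]; rfl
    simp only [ho]
    rw [two_mul]
    exact (add_le_add (pair hf) (pair hg)).trans le_self_add
  have h1 : 1 ≤ cost A 0 := le_iInf₂ fun j hj => by
    rcases j with _ | j
    · exact absurd hj h0
    · simp
  by_cases h2 : A.stop [0]
  · have ho : ∀ f, f (A.node []) = 0 → output A f = A.out [0] := fun f hf => by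
      have e : info A f 1 = [0] := by simp [info, hf]
      have hex : ∃ j, A.stop (info A f j) := ⟨1, e ▸ h2⟩
      have : Nat.find hex = 1 := by
        rw [Nat.find_eq_iff]
        exact ⟨e ▸ h2, fun j hj => by obtain rfl : j = 0 := by omega
                                      exact h0⟩
      rw [output, dif_pos hex, this, e]
    rw [two_mul]
    refine add_le_add ?_ (le_mul_of_one_le_right' h1)
    rcases h (A.node []) with h3 | h3
    · rw [ho f h3, ho (-f) (by simp [h3])]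
      exact (pair hf).trans le_self_add
    · rw [ho g h3, ho (-g) (by simp [h3])]
      exact (pair hg).trans le_add_self
  · have h3 : 2 ≤ cost A 0 := le_iInf₂ fun j hj => by
      rcases j with _ | _ | j
      · exact absurd hj h0
      · exact absurd hj (by simpa [info] using h2)
      · exact_mod_cast Nat.le_add_left 2 j
    rw [mul_comm]
    exact (mul_le_mul_right h3 _).trans le_add_self

lemma lower (cont meas : Prop) (k : ℕ) : ∃ β : ℝ, 0 < β ∧ ∀ d, 0 < d →
    ENNReal.ofReal β ≤ eran cont meas 1 d k := by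
  have s1 : ContDiff ℝ (⊤ : ℕ∞) fun t : ℝ => expNegInvGlue (t - 1 / 2) :=
    expNegInvGlue.contDiff.comp (by fun_prop)
  have s2 : ContDiff ℝ (⊤ : ℕ∞) fun t : ℝ => expNegInvGlue (1 / 2 - t) :=
    expNegInvGlue.contDiff.comp (by fun_prop)
  obtain ⟨c₁, hc₁, h₁⟩ := bump k s1
  obtain ⟨c₂, hc₂, h₂⟩ := bump k s2
  have p1 := pos_int s1.continuous (fun t => expNegInvGlue.nonneg _) (a := 1 / 2) (b := 1)
    (by norm_num) (by norm_num) le_rfl fun t ht => expNegInvGlue.pos_of_pos (by linarith [ht.1])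
  have p2 := pos_int s2.continuous (fun t => expNegInvGlue.nonneg _) (a := 0) (b := 1 / 2)
    le_rfl (by norm_num) (by norm_num) fun t ht => expNegInvGlue.pos_of_pos (by linarith [ht.2])
  set β := min (c₁ * ∫ t : II, expNegInvGlue (t - 1 / 2) ∂lam)
    (c₂ * ∫ t : II, expNegInvGlue (1 / 2 - t) ∂lam) with hβ
  have hβ0 : 0 < β := lt_min (mul_pos hc₁ p1) (mul_pos hc₂ p2)
  refine ⟨β / 2, by positivity, fun d hd => ?_⟩
  let i : Fin d := ⟨0, hd⟩
  have hS : ∀ {u : ℝ → ℝ}, Continuous u → ∀ c : ℝ,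
      S d (fun x => c * u (x i)) = c * ∫ t : II, u t ∂lam := fun {u} hu c => by
    rw [S_eq (Continuous.continuousOn (by fun_prop)), integral_const_mul]
    congr 1
    exact integral_comp_eval (μ := fun _ : Fin d => lam) (f := fun t : II => u t)
      (Continuous.aestronglyMeasurable (by fun_prop))
  set f : (Fin d → ℝ) → ℝ := fun x => c₁ * expNegInvGlue (x i - 1 / 2) with hf
  set g : (Fin d → ℝ) → ℝ := fun x => c₂ * expNegInvGlue (1 / 2 - x i) with hg
  have m1 : f ∈ F cont d k := h₁ cont d i c₁ (abs_of_pos hc₁).le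
  have m2 : -f ∈ F cont d k := by
    convert h₁ cont d i (-c₁) (by rw [abs_neg, abs_of_pos hc₁]) using 1
    ext x; simp [hf]
  have m3 : g ∈ F cont d k := h₂ cont d i c₂ (abs_of_pos hc₂).le
  have m4 : -g ∈ F cont d k := by
    convert h₂ cont d i (-c₂) (by rw [abs_neg, abs_of_pos hc₂]) using 1
    ext x; simp [hg]
  have m0 : (0 : (Fin d → ℝ) → ℝ) ∈ F cont d k := by
    convert h₁ cont d i 0 (by simpa using hc₁.le) using 1
    ext x; simp
  simp only [eran, le_iInf_iff]
  intro Ω _ μ _ A _ hA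
  by_contra hlt
  rw [not_le] at hlt
  have hm : ∀ u ∈ F cont d k, ∃ v : Ω → ℝ≥0∞, Measurable v ∧
      (∀ ω, ENNReal.ofReal |S d u - output (A ω) u| ≤ v ω) ∧
      ∫⁻ ω, v ω ∂μ < ENNReal.ofReal (β / 2) := fun u hu => by
    have := (le_iSup₂ (f := fun u (_ : u ∈ F cont d k) => upperInt μ
      fun ω => ENNReal.ofReal |S d u - output (A ω) u|) u hu).trans_lt hlt
    simpa only [upperInt, iInf_lt_iff, exists_prop] using this
  obtain ⟨v1, a1, b1, e1⟩ := hm _ m1
  obtain ⟨v2, a2, b2, e2⟩ := hm _ m2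
  obtain ⟨v3, a3, b3, e3⟩ := hm _ m3
  obtain ⟨v4, a4, b4, e4⟩ := hm _ m4
  have h3 : ∫⁻ _, 2 * ENNReal.ofReal (2 * β) ∂μ ≤ ∫⁻ ω, (v1 ω + v2 ω) + (v3 ω + v4 ω) +
      ENNReal.ofReal (2 * β) * cost (A ω) 0 ∂μ := lintegral_mono fun ω => by
    refine (det (A ω) (f := f) (g := g) ?_ ?_ fun x => ?_).trans ?_
    · rw [hf, hS s1.continuous]; exact min_le_left _ _
    · rw [hg, hS s2.continuous]; exact min_le_right _ _
    · rcases le_total (x i) (1 / 2) with h | h
      · left; simp only [hf]; rw [expNegInvGlue.zero_of_nonpos (by linarith), mul_zero]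
      · right; simp only [hg]; rw [expNegInvGlue.zero_of_nonpos (by linarith), mul_zero]
    · gcongr
      exacts [b1 ω, b2 ω, b3 ω, b4 ω]
  rw [lintegral_add_left ((a1.fun_add a2).fun_add (a3.fun_add a4)),
    lintegral_add_left (a1.fun_add a2),
    lintegral_add_left a1, lintegral_add_left a3,
    lintegral_const_mul' _ _ ENNReal.ofReal_ne_top, lintegral_const, measure_univ, mul_one,
    two_mul] at h3
  have h4 := h3.trans (add_le_add_right (mul_le_mul_right (hA 0 m0) _) _)
  rw [Nat.cast_one, mul_one, ENNReal.add_le_add_iff_right ENNReal.ofReal_ne_top] at h4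
  have h5 := h4.trans_lt (ENNReal.add_lt_add (ENNReal.add_lt_add e1 e2) (ENNReal.add_lt_add e3 e4))
  rw [← ENNReal.ofReal_add (by positivity) (by positivity),
    ← ENNReal.ofReal_add (by positivity) (by positivity)] at h5
  exact absurd ((ENNReal.ofReal_lt_ofReal_iff (by positivity)).1 h5) (by linarith)

theorem result (cont meas : Prop) (k : ℕ) (hk : 1 ≤ k) :
    IsGLB {t : ℝ | ∃ C : ℝ, ∀ d n : ℕ, 1 ≤ d → 1 ≤ n → eran cont meas n d k ≤
      ENNReal.ofReal (C * (d : ℝ) ^ t * (n : ℝ) ^ (-(k : ℝ) / d - 1 / 2))} 0 := by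
  constructor
  · rintro t ⟨C, hC⟩
    by_contra ht
    rw [not_le] at ht
    obtain ⟨β, hβ, h⟩ := lower cont meas k
    have h1 : Tendsto (fun d : ℕ => C * (d : ℝ) ^ t) atTop (𝓝 (C * 0)) := by
      have := (tendsto_rpow_neg_atTop (neg_pos.2 ht)).comp tendsto_natCast_atTop_atTop
      simpa using this.const_mul C
    rw [mul_zero] at h1
    obtain ⟨d, h2, h3⟩ := ((h1.eventually (gt_mem_nhds hβ)).and (eventually_ge_atTop 1)).exists
    have h4 := (h d h3).trans (hC d 1 h3 le_rfl)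
    rw [Nat.cast_one, Real.one_rpow, mul_one] at h4
    exact absurd h4 (not_le.2 ((ENNReal.ofReal_lt_ofReal_iff hβ).2 h2))
  · intro b hb
    refine le_of_forall_pos_le_add fun t ht => ?_
    obtain ⟨C, hC, h⟩ := final (k := k) ht hk
    rw [zero_add]
    exact hb ⟨C, fun d n hd hn => upper cont meas (by positivity) (h d n hd hn)⟩

end Pool.Agent.Results.MP_7d5d9e_an.ExponentZero
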